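import Pool.Agent.L5helper98.ID.Defs

set_option autoImplicit false

open MeasureTheory ProbabilityTheory Filter Topology Set
open scoped ENNReal BoundedContinuousFunction

namespace Pool.Agent.L5helper66.ID

open Pool.Agent.L5helper98.ID

theorem MAS_holds : St_MAS := by
  intro Ω _ P _ ω hm hI
  have hball : Metric.ball (0 : ℝ) Real.pi = D := by
    rw [Real.ball_eq_Ioo, D]
    simp
  have hmass : ∀ o, mass (fun _ => 1) 0 Real.pi ω o = ∫ u in D, Real.exp (ω u o) := by
    intro o
    unfold mass
    rw [hball]
    simp
  have hmeas : Measurable (fun p : Ω × ℝ => Real.exp (ω p.2 p.1)) :=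
    Real.measurable_exp.comp (hm.comp measurable_swap)
  have hsm : StronglyMeasurable (fun o => ∫ u in D, Real.exp (ω u o)) :=
    hmeas.stronglyMeasurable.integral_prod_right
  refine ⟨?_, ?_, ?_⟩
  · have h1 : mass (fun _ => 1) 0 Real.pi ω = fun o => ∫ u in D, Real.exp (ω u o) :=
      funext hmass
    rw [h1]
    exact hsm.measurable.aemeasurable
  · intro o
    rw [hmass]
    exact integral_nonneg (fun _ => (Real.exp_pos _).le)
  · have hL : Measurable (fun o => ∫⁻ u in D, ENNReal.ofReal (Real.exp (ω u o))) :=
      hmeas.ennreal_ofReal.lintegral_prod_right'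
    have hfin := ae_lt_top hL (by rw [hI]; exact ENNReal.ofReal_ne_top)
    filter_upwards [hfin] with o ho
    rw [hmass, ofReal_integral_eq_lintegral_ofReal]
    · refine ⟨?_, ?_⟩
      · exact (hmeas.comp measurable_prodMk_left).aestronglyMeasurable
      · rw [hasFiniteIntegral_iff_ofReal (Filter.Eventually.of_forall fun _ => (Real.exp_pos _).le)]
        exact ho
    · exact Filter.Eventually.of_forall fun _ => (Real.exp_pos _).le

end Pool.Agent.L5helper66.ID
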